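import Mathlib

set_option autoImplicit false

/-!
# Arithmetic of concurrent lines of the Wang–Shi split in affine coordinates
-/

namespace Q137.WangShi

/-- marked boundary points of the triangle `(0,0), (d,0), (0,d)` -/
def Bd (d : ℕ) (r1 r2 : ℝ) : Prop :=
  (∃ i : ℕ, i ≤ d ∧ r1 = i ∧ r2 = 0) ∨ (∃ j : ℕ, j ≤ d ∧ r1 = 0 ∧ r2 = j) ∨
    (∃ i : ℕ, i ≤ d ∧ r1 = d - i ∧ r2 = i)

/-- the determinant of three points -/
def det (p1 p2 q1 q2 r1 r2 : ℝ) : ℝ := (r1 - p1) * (q2 - p2) - (r2 - p2) * (q1 - p1)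

theorem stepA {d a b : ℕ} {x y : ℝ} (hx : 0 < x) (hy : 0 < y) (hxy : x + y < d)
    (hb : 0 < b) (hbd : b ≤ d) (had : a < d)
    (h1 : x * b + y * a = a * b) {r1 r2 : ℝ} (hr : Bd d r1 r2)
    (hne : ¬ (r1 = a + 1 ∧ r2 = 0)) (hdet : det x y (a + 1) 0 r1 r2 = 0) :
    ∃ j : ℕ, j < b ∧ x * j + y * (a + 1) = (a + 1) * j := by
  have hb' : (0:ℝ) < b := by exact_mod_cast hb
  have hbd' : (b:ℝ) ≤ d := by exact_mod_cast hbd
  have had' : (a:ℝ) + 1 ≤ d := by exact_mod_cast had
  have ha0 : (0:ℝ) ≤ a := by positivity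
  have hax : x < a := by
    by_contra hcon
    push Not at hcon
    have : (a:ℝ) * b ≤ x * b := mul_le_mul_of_nonneg_right hcon hb'.le
    have hya : y * a ≤ 0 := by linarith
    have ha' : (a:ℝ) = 0 := by
      by_contra hne'
      have : (0:ℝ) < a := lt_of_le_of_ne ha0 (Ne.symm hne')
      have := mul_pos hy this
      linarith
    rw [ha'] at h1
    have : 0 < x * b := mul_pos hx hb'
    linarith
  unfold det at hdet
  rcases hr with ⟨i, hi, rfl, rfl⟩ | ⟨j, hj, rfl, rfl⟩ | ⟨i, hi, rfl, rfl⟩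
  · exfalso
    apply hne
    refine ⟨?_, rfl⟩
    have h2 : y * ((a:ℝ) + 1 - i) = 0 := by linear_combination hdet
    rcases mul_eq_zero.1 h2 with h | h
    · linarith
    · linarith
  · have h2 : x * j + y * (a + 1) = (a + 1) * j := by linear_combination hdet
    refine ⟨j, ?_, h2⟩
    by_contra hcon
    push Not at hcon
    have hbj : (b:ℝ) ≤ j := by exact_mod_cast hcon
    -- `b (a - x) = y a`, `j (a + 1 - x) = y (a + 1)`
    have e1 : (b:ℝ) * (a - x) = y * a := by linear_combination -h1
    have e2 : (j:ℝ) * (a + 1 - x) = y * (a + 1) := by linear_combination -h2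
    have e3 : (b:ℝ) * (a + 1 - x) ≤ y * (a + 1) := by
      rw [← e2]; exact mul_le_mul_of_nonneg_right hbj (by linarith)
    -- hence `b ≤ y`
    have e4 : (b:ℝ) ≤ y := by nlinarith
    have e5 : 0 < a - x := by linarith
    nlinarith
  · exfalso
    have hid : (i:ℝ) ≤ d := by exact_mod_cast hi
    have hi0 : (0:ℝ) ≤ i := by positivity
    -- `y (d - a - 1) = i (x + y - a - 1)`
    have h2 : y * ((d:ℝ) - a - 1) = i * (x + y - a - 1) := by linear_combination -hdet
    rcases hi0.eq_or_lt with h0 | h0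
    · rw [← h0] at h2 hne
      have : (d:ℝ) - a - 1 = 0 := by
        rcases mul_eq_zero.1 (h2.trans (zero_mul _)) with h | h
        · linarith
        · exact h
      exact hne ⟨by linarith, rfl⟩
    · have h3 : 0 ≤ x + y - a - 1 := by
        by_contra hcon
        push Not at hcon
        have h4 : i * (x + y - a - 1) < 0 := mul_neg_of_pos_of_neg h0 hcon
        have h5 : 0 ≤ y * ((d:ℝ) - a - 1) := mul_nonneg hy.le (by linarith)
        linarith
      have h4 : y * ((d:ℝ) - a - 1) ≤ d * (x + y - a - 1) := by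
        rw [h2]; exact mul_le_mul_of_nonneg_right hid h3
      -- so `d (a + 1 - x) ≤ y (a + 1)`
      have h5 : (d:ℝ) * (a + 1 - x) ≤ y * (a + 1) := by linarith
      have e1 : (b:ℝ) * (a - x) = y * a := by linear_combination -h1
      have e6 : (b:ℝ) * (a - x) ≤ d * (a - x) := mul_le_mul_of_nonneg_right hbd' (by linarith)
      have e7 : y < d := by linarith
      nlinarith

theorem stepB {d a b j : ℕ} {x y : ℝ} (hx : 0 < x) (hy : 0 < y)
    (hbd : b ≤ d) (had : a < d)
    (h1 : x * b + y * a = a * b) (hj : j < b) (h2 : x * j + y * (a + 1) = (a + 1) * j)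
    {r1 r2 : ℝ} (hr : Bd d r1 r2)
    (hne : ¬ (r1 = 0 ∧ r2 = b - 1)) (hdet : det x y 0 (b - 1) r1 r2 = 0) :
    x < a ∧ ((a:ℝ) - x) * (a + 1 - x) = x * y := by
  have hb : 0 < b := by omega
  have hb' : (0:ℝ) < b := by exact_mod_cast hb
  have hbd' : (b:ℝ) ≤ d := by exact_mod_cast hbd
  have had' : (a:ℝ) + 1 ≤ d := by exact_mod_cast had
  have ha0 : (0:ℝ) ≤ a := by positivity
  have hax : x < a := by
    by_contra hcon
    push Not at hcon
    have : (a:ℝ) * b ≤ x * b := mul_le_mul_of_nonneg_right hcon hb'.le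
    have hya : y * a ≤ 0 := by linarith
    have ha' : (a:ℝ) = 0 := by
      by_contra hne'
      have : (0:ℝ) < a := lt_of_le_of_ne ha0 (Ne.symm hne')
      have := mul_pos hy this
      linarith
    rw [ha'] at h1
    have : 0 < x * b := mul_pos hx hb'
    linarith
  have hjc : (j:ℝ) ≤ b - 1 := by
    have : j + 1 ≤ b := hj
    have : ((j + 1 : ℕ) : ℝ) ≤ b := by exact_mod_cast this
    push_cast at this
    linarith
  set c : ℝ := (b:ℝ) - 1 with hc
  -- `j > y`
  have e1 : (b:ℝ) * (a - x) = y * a := by linear_combination -h1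
  have e2 : (j:ℝ) * (a + 1 - x) = y * (a + 1) := by linear_combination -h2
  have hjy : y < j := by
    by_contra hcon
    push Not at hcon
    have : (j:ℝ) * (a + 1 - x) ≤ y * (a + 1 - x) := mul_le_mul_of_nonneg_right hcon (by linarith)
    nlinarith
  have hcy : y < c := by linarith
  -- `x c ≤ (a + 1) (c - y)`
  have e3 : x * c ≤ (a + 1) * (c - y) := by
    -- from `x j = (a + 1)(j - y)` and `(a + 1 - x) (c - j) ≥ 0`
    have : 0 ≤ ((a:ℝ) + 1 - x) * (c - j) := mul_nonneg (by linarith) (by linarith)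
    nlinarith
  have hfin : ∀ k : ℝ, k = c → x * k + y * (a + 1) = (a + 1) * k →
      ((a:ℝ) - x) * (a + 1 - x) = x * y := by
    intro k hk h3
    rw [hk, hc] at h3
    linear_combination (a - x) * (h3 - h1) - h1
  unfold det at hdet
  refine ⟨hax, ?_⟩
  rcases hr with ⟨i, hi, rfl, rfl⟩ | ⟨i, hi, rfl, rfl⟩ | ⟨i, hi, rfl, rfl⟩
  · -- `i (c - y) = x c`
    have h3 : (i:ℝ) * (c - y) = x * c := by linear_combination hdet
    have hia : (i:ℝ) ≤ a + 1 := by
      by_contra hcon
      push Not at hcon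
      have : ((a:ℝ) + 1) * (c - y) < i * (c - y) := mul_lt_mul_of_pos_right hcon (by linarith)
      linarith
    have hai : (a:ℝ) < i := by
      by_contra hcon
      push Not at hcon
      have h4 : (i:ℝ) * (c - y) ≤ a * (c - y) := mul_le_mul_of_nonneg_right hcon (by linarith)
      -- `x c ≤ a (c - y)`, i.e. `a y ≤ (a - x) c`; but `(a - x) b = a y`
      have h5 : y * a ≤ (a - x) * c := by linarith
      have h6 : (a - x) * c < (a - x) * b := by
        apply mul_lt_mul_of_pos_left _ (by linarith)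
        linarith
      linarith
    have hi' : i = a + 1 := by
      have h4 : i ≤ a + 1 := by exact_mod_cast hia
      have h5 : a < i := by exact_mod_cast hai
      omega
    rw [hi'] at h3
    push_cast at h3
    apply hfin c rfl
    linear_combination -h3
  · exfalso
    apply hne
    refine ⟨rfl, ?_⟩
    have h3 : x * (c - i) = 0 := by linear_combination -hdet
    rcases mul_eq_zero.1 h3 with h | h
    · linarith
    · linarith
  · have hi0 : (0:ℝ) ≤ i := by positivity
    have hid : (i:ℝ) ≤ d := by exact_mod_cast hi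
    -- `i (c - x - y) = d (c - y) - x c`
    have h3 : (i:ℝ) * (c - x - y) = d * (c - y) - x * c := by linear_combination -hdet
    have h4 : (a + 1) * (c - y) ≤ d * (c - y) := mul_le_mul_of_nonneg_right had' (by linarith)
    rcases hi0.eq_or_lt with h0 | h0
    · rw [← h0] at h3
      apply hfin c rfl
      have h5 : (a + 1) * (c - y) = x * c := by linarith
      linear_combination -h5
    · exfalso
      have h5 : 0 ≤ c - x - y := by
        by_contra hcon
        push Not at hcon
        have : (i:ℝ) * (c - x - y) < 0 := mul_neg_of_pos_of_neg h0 hcon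
        linarith
      have h6 : (i:ℝ) * (c - x - y) ≤ d * (c - x - y) := mul_le_mul_of_nonneg_right hid h5
      have h7 : x * d ≤ x * c := by linarith
      have h8 := le_of_mul_le_mul_left h7 hx
      linarith

theorem unique_a {a a' : ℕ} {x y : ℝ} (h1 : x < a) (h1' : x < a')
    (h2 : ((a:ℝ) - x) * (a + 1 - x) = x * y) (h2' : ((a':ℝ) - x) * (a' + 1 - x) = x * y) :
    a = a' := by
  have h3 : ((a:ℝ) - a') * (a + a' - 2 * x + 1) = 0 := by linear_combination h2 - h2'
  rcases mul_eq_zero.1 h3 with h | h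
  · exact_mod_cast sub_eq_zero.1 h
  · linarith

end Q137.WangShi
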