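import Mathlib
import Pool.Agent.Q137.WangShi.Key

set_option autoImplicit false

/-!
# At most `d + 1` lines of the Wang–Shi split through an interior point
-/

namespace Q137.WangShi

open Set Module

/-- the plane -/
abbrev E2 := EuclideanSpace ℝ (Fin 2)

/-- the `i`-th division point of side `s` -/
noncomputable def divPoint (T : Affine.Triangle ℝ E2) (d : ℕ) (s : Fin 3) (i : ℕ) : E2 :=
  AffineMap.lineMap (T.points s) (T.points (s + 1)) ((i : ℝ) / (d : ℝ))

/-- marked points -/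
def Marked (T : Affine.Triangle ℝ E2) (d : ℕ) (p : E2) : Prop :=
  ∃ (s : Fin 3) (i : ℕ), i ≤ d ∧ p = divPoint T d s i

/-- the lines of the split -/
def wsLines (T : Affine.Triangle ℝ E2) (d : ℕ) : Set (AffineSubspace ℝ E2) :=
  {L | ∃ p q, Marked T d p ∧ Marked T d q ∧
    (∀ s : Fin 3, ¬ (p ∈ segment ℝ (T.points s) (T.points (s + 1)) ∧
      q ∈ segment ℝ (T.points s) (T.points (s + 1)))) ∧ L = line[ℝ, p, q]}

theorem marked_finite (T : Affine.Triangle ℝ E2) (d : ℕ) : {p | Marked T d p}.Finite := by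
  apply (Set.finite_range (fun q : Fin 3 × Fin (d + 1) => divPoint T d q.1 q.2)).subset
  rintro p ⟨s, i, hi, rfl⟩
  exact ⟨(s, ⟨i, by omega⟩), rfl⟩

theorem wsLines_finite (T : Affine.Triangle ℝ E2) (d : ℕ) : (wsLines T d).Finite := by
  apply (((marked_finite T d).prod (marked_finite T d)).image
    (fun q : E2 × E2 => line[ℝ, q.1, q.2])).subset
  rintro L ⟨p, q, hp, hq, -, rfl⟩
  exact ⟨(p, q), ⟨hp, hq⟩, rfl⟩

/-- the affine basis given by a triangle -/
noncomputable def bas (T : Affine.Triangle ℝ E2) : AffineBasis (Fin 3) ℝ E2 :=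
  ⟨T.points, T.independent, by
    rw [T.independent.affineSpan_eq_top_iff_card_eq_finrank_add_one]
    simp⟩

theorem bas_apply (T : Affine.Triangle ℝ E2) (k : Fin 3) : bas T k = T.points k := rfl

theorem coord_points (T : Affine.Triangle ℝ E2) (k l : Fin 3) :
    (bas T).coord k (T.points l) = if k = l then 1 else 0 := by
  rw [← bas_apply, AffineBasis.coord_apply]

theorem coord_divPoint (T : Affine.Triangle ℝ E2) (d : ℕ) (k s : Fin 3) (i : ℕ) :
    (bas T).coord k (divPoint T d s i) =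
      (1 - (i:ℝ) / d) * (if k = s then 1 else 0) + (i:ℝ) / d * (if k = s + 1 then 1 else 0) := by
  unfold divPoint
  rw [AffineMap.apply_lineMap, coord_points, coord_points, AffineMap.lineMap_apply]
  simp only [vsub_eq_sub, smul_eq_mul, vadd_eq_add]
  ring

/-- first scaled coordinate with apex `s` -/
noncomputable def cx (T : Affine.Triangle ℝ E2) (d : ℕ) (s : Fin 3) (Q : E2) : ℝ :=
  d * (bas T).coord (s + 1) Q

/-- second scaled coordinate with apex `s` -/
noncomputable def cy (T : Affine.Triangle ℝ E2) (d : ℕ) (s : Fin 3) (Q : E2) : ℝ :=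
  d * (bas T).coord (s + 2) Q

theorem coords_sum (T : Affine.Triangle ℝ E2) (s : Fin 3) (Q : E2) :
    (bas T).coord s Q + (bas T).coord (s + 1) Q + (bas T).coord (s + 2) Q = 1 := by
  have h := (bas T).sum_coord_apply_eq_one Q
  rw [Fin.sum_univ_three] at h
  fin_cases s
  · simpa using h
  · simp only [Fin.mk_one, Fin.isValue, Fin.reduceAdd]
    linarith
  · simp only [Fin.reduceFinMk, Fin.isValue, Fin.reduceAdd]
    linarith

theorem cx_side0 {T : Affine.Triangle ℝ E2} {d : ℕ} (hd : 0 < d) (s : Fin 3) (i : ℕ) :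
    cx T d s (divPoint T d s i) = i ∧ cy T d s (divPoint T d s i) = 0 := by
  have hd' : (d:ℝ) ≠ 0 := by positivity
  have h1 : s + 1 ≠ s := by fin_cases s <;> decide
  have h2 : s + 2 ≠ s := by fin_cases s <;> decide
  have h3 : s + 2 ≠ s + 1 := by fin_cases s <;> decide
  unfold cx cy
  rw [coord_divPoint, coord_divPoint]
  simp only [h1, h2, h3, if_false, if_true]
  constructor
  · field_simp
    ring
  · ring

theorem cx_side1 {T : Affine.Triangle ℝ E2} {d : ℕ} (hd : 0 < d) (s : Fin 3) (i : ℕ) :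
    cx T d s (divPoint T d (s + 1) i) = d - i ∧ cy T d s (divPoint T d (s + 1) i) = i := by
  have hd' : (d:ℝ) ≠ 0 := by positivity
  have h1 : s + 1 ≠ s + 1 + 1 := by fin_cases s <;> decide
  have h2 : s + 2 = s + 1 + 1 := by fin_cases s <;> decide
  have h3 : s + 1 + 1 ≠ s + 1 := by fin_cases s <;> decide
  unfold cx cy
  rw [coord_divPoint, coord_divPoint]
  rw [h2]
  simp only [h1, h3, if_false, if_true]
  constructor
  · field_simp
    ring
  · field_simp
    ring

theorem cx_side2 {T : Affine.Triangle ℝ E2} {d : ℕ} (hd : 0 < d) (s : Fin 3) (i : ℕ) :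
    cx T d s (divPoint T d (s + 2) i) = 0 ∧ cy T d s (divPoint T d (s + 2) i) = d - i := by
  have hd' : (d:ℝ) ≠ 0 := by positivity
  have h1 : s + 1 ≠ s + 2 + 1 := by fin_cases s <;> decide
  have h2 : s + 1 ≠ s + 2 := by fin_cases s <;> decide
  have h3 : s + 2 ≠ s + 2 + 1 := by fin_cases s <;> decide
  unfold cx cy
  rw [coord_divPoint, coord_divPoint]
  simp only [h1, h2, h3, if_false, if_true]
  constructor
  · ring
  · field_simp
    ring

theorem fin3_cases (s t : Fin 3) : t = s ∨ t = s + 1 ∨ t = s + 2 := by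
  fin_cases s <;> fin_cases t <;> simp

theorem marked_bd {T : Affine.Triangle ℝ E2} {d : ℕ} (hd : 0 < d) (s : Fin 3) {p : E2}
    (hp : Marked T d p) : Bd d (cx T d s p) (cy T d s p) := by
  obtain ⟨t, i, hi, rfl⟩ := hp
  rcases fin3_cases s t with rfl | rfl | rfl
  · left
    exact ⟨i, hi, cx_side0 hd _ i⟩
  · right; right
    exact ⟨i, hi, cx_side1 hd _ i⟩
  · right; left
    refine ⟨d - i, by omega, (cx_side2 hd _ i).1, ?_⟩
    rw [(cx_side2 hd _ i).2, Nat.cast_sub hi]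

theorem cxy_inj {T : Affine.Triangle ℝ E2} {d : ℕ} (hd : 0 < d) (s : Fin 3) {p q : E2}
    (h1 : cx T d s p = cx T d s q) (h2 : cy T d s p = cy T d s q) : p = q := by
  have hd' : (d:ℝ) ≠ 0 := by positivity
  unfold cx at h1
  unfold cy at h2
  have e1 := mul_left_cancel₀ hd' h1
  have e2 := mul_left_cancel₀ hd' h2
  have e3 := coords_sum T s p
  have e4 := coords_sum T s q
  apply (bas T).ext_elem
  intro k
  rcases fin3_cases s k with rfl | rfl | rfl
  · linarith
  · exact e1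
  · exact e2

theorem det_line {T : Affine.Triangle ℝ E2} {d : ℕ} (s : Fin 3) {L : AffineSubspace ℝ E2}
    (hL : L ∈ wsLines T d) {p q r : E2} (hp : p ∈ L) (hq : q ∈ L) (hr : r ∈ L) :
    det (cx T d s p) (cy T d s p) (cx T d s q) (cy T d s q) (cx T d s r) (cy T d s r) = 0 := by
  obtain ⟨u, v, -, -, -, rfl⟩ := hL
  rw [mem_affineSpan_pair_iff_exists_lineMap_eq] at hp hq hr
  obtain ⟨a, rfl⟩ := hp
  obtain ⟨b, rfl⟩ := hq
  obtain ⟨c, rfl⟩ := hr
  unfold det cx cy
  simp only [AffineMap.apply_lineMap]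
  simp only [AffineMap.lineMap_apply, vsub_eq_sub, smul_eq_mul, vadd_eq_add]
  ring

theorem line_unique {T : Affine.Triangle ℝ E2} {d : ℕ} {L L' : AffineSubspace ℝ E2}
    (hL : L ∈ wsLines T d) (hL' : L' ∈ wsLines T d) {p q : E2} (hpq : p ≠ q)
    (hp : p ∈ L) (hq : q ∈ L) (hp' : p ∈ L') (hq' : q ∈ L') : L = L' := by
  obtain ⟨u, v, -, -, -, rfl⟩ := hL
  obtain ⟨u', v', -, -, -, rfl⟩ := hL'
  rw [← affineSpan_pair_eq_of_mem_of_mem_of_ne hp hq hpq,
    ← affineSpan_pair_eq_of_mem_of_mem_of_ne hp' hq' hpq]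

theorem interior_coords {T : Affine.Triangle ℝ E2} {P : E2}
    (hP : P ∈ interior (convexHull ℝ (range T.points))) (k : Fin 3) : 0 < (bas T).coord k P := by
  have h : interior (convexHull ℝ (range (bas T))) = {x | ∀ i, 0 < (bas T).coord i x} :=
    AffineBasis.interior_convexHull (bas T)
  have h2 : P ∈ interior (convexHull ℝ (range (bas T))) := hP
  rw [h] at h2
  exact h2 k

theorem divPoint_ne {T : Affine.Triangle ℝ E2} {d : ℕ} (hd : 0 < d) {P : E2}
    (hP : ∀ k, 0 < (bas T).coord k P) (s : Fin 3) (i : ℕ) : P ≠ divPoint T d s i := by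
  rintro rfl
  have h := (cx_side0 (T := T) hd s i).2
  unfold cy at h
  have hd' : (0:ℝ) < d := by exact_mod_cast hd
  have := mul_pos hd' (hP (s + 2))
  linarith

theorem divPoint_top {T : Affine.Triangle ℝ E2} {d : ℕ} (hd : 0 < d) (s : Fin 3) :
    divPoint T d s d = divPoint T d (s + 1) 0 := by
  have hd' : (d:ℝ) ≠ 0 := by positivity
  unfold divPoint
  rw [div_self hd', AffineMap.lineMap_apply_one]
  simp

theorem divPoint_mem_segment {T : Affine.Triangle ℝ E2} {d : ℕ} (hd : 0 < d) (s : Fin 3) {i : ℕ}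
    (hi : i ≤ d) : divPoint T d s i ∈ segment ℝ (T.points s) (T.points (s + 1)) := by
  have hd' : (0:ℝ) < d := by exact_mod_cast hd
  have hi' : (i:ℝ) ≤ d := by exact_mod_cast hi
  rw [segment_eq_image_lineMap]
  exact ⟨(i:ℝ) / d, ⟨by positivity, by rwa [div_le_one hd']⟩, rfl⟩

theorem marked_half {T : Affine.Triangle ℝ E2} {d : ℕ} (hd : 0 < d) {p : E2}
    (hp : Marked T d p) : ∃ (s : Fin 3) (i : ℕ), i < d ∧ p = divPoint T d s i := by
  obtain ⟨t, i, hi, rfl⟩ := hp
  rcases hi.lt_or_eq with h | rfl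
  · exact ⟨t, i, h, rfl⟩
  · exact ⟨t + 1, 0, hd, divPoint_top hd t⟩

theorem exists_pair {T : Affine.Triangle ℝ E2} {d : ℕ} (hd : 0 < d) {L : AffineSubspace ℝ E2}
    (hL : L ∈ wsLines T d) : ∃ (s : Fin 3) (i j : ℕ), i < d ∧ j < d ∧ divPoint T d s i ∈ L ∧
      divPoint T d (s + 2) j ∈ L := by
  obtain ⟨p, q, hp, hq, hside, rfl⟩ := hL
  obtain ⟨s, i, hi, rfl⟩ := marked_half hd hp
  obtain ⟨t, j, hj, rfl⟩ := marked_half hd hq
  have hne : t ≠ s := by
    rintro rfl
    exact hside t ⟨divPoint_mem_segment hd t hi.le, divPoint_mem_segment hd t hj.le⟩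
  rcases fin3_cases s t with h | rfl | rfl
  · exact absurd h hne
  · refine ⟨s + 1, j, i, hj, hi, right_mem_affineSpan_pair ℝ _ _, ?_⟩
    have : s + 1 + 2 = s := by fin_cases s <;> decide
    rw [this]
    exact left_mem_affineSpan_pair ℝ _ _
  · exact ⟨s, i, j, hi, hj, left_mem_affineSpan_pair ℝ _ _, right_mem_affineSpan_pair ℝ _ _⟩

/-- a second marked point on a line -/
theorem exists_other {T : Affine.Triangle ℝ E2} {d : ℕ} {L : AffineSubspace ℝ E2}
    (hd : 0 < d) (hL : L ∈ wsLines T d) (x : E2) : ∃ r, Marked T d r ∧ r ∈ L ∧ r ≠ x := by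
  obtain ⟨p, q, hp, hq, hside, rfl⟩ := hL
  by_cases h : p = x
  · refine ⟨q, hq, right_mem_affineSpan_pair ℝ _ _, ?_⟩
    rintro rfl
    obtain ⟨s, i, hi, rfl⟩ := hp
    rw [← h] at hside
    exact hside s ⟨divPoint_mem_segment hd s hi, divPoint_mem_segment hd s hi⟩
  · exact ⟨p, hp, left_mem_affineSpan_pair ℝ _ _, h⟩

/-- the key geometric fact -/
theorem exceptional {T : Affine.Triangle ℝ E2} {d : ℕ} (hd : 0 < d) {P : E2}
    (hP : ∀ k, 0 < (bas T).coord k P) {s : Fin 3} {i j : ℕ} (hi : i < d) (hj : j < d)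
    {L L₁ L₂ : AffineSubspace ℝ E2} (hL : L ∈ wsLines T d) (hL₁ : L₁ ∈ wsLines T d)
    (hL₂ : L₂ ∈ wsLines T d) (hPL : P ∈ L) (hPL₁ : P ∈ L₁) (hPL₂ : P ∈ L₂)
    (hiL : divPoint T d s i ∈ L) (hjL : divPoint T d (s + 2) j ∈ L)
    (hiL₁ : divPoint T d s (i + 1) ∈ L₁) (hjL₂ : divPoint T d (s + 2) (j + 1) ∈ L₂) :
    cx T d s P < i ∧
      ((i:ℝ) - cx T d s P) * (i + 1 - cx T d s P) = cx T d s P * cy T d s P := by
  have hd' : (0:ℝ) < d := by exact_mod_cast hd
  have hx : 0 < cx T d s P := mul_pos hd' (hP _)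
  have hy : 0 < cy T d s P := mul_pos hd' (hP _)
  have hxy : cx T d s P + cy T d s P < d := by
    have h1 := coords_sum T s P
    have h2 := hP s
    unfold cx cy
    nlinarith
  obtain ⟨b, hb⟩ : ∃ b, b = d - j := ⟨_, rfl⟩
  have hbR : (b:ℝ) = d - j := by rw [hb, Nat.cast_sub hj.le]
  have h1 : cx T d s P * b + cy T d s P * i = i * b := by
    have := det_line s hL hPL hiL hjL
    rw [(cx_side0 hd s i).1, (cx_side0 hd s i).2, (cx_side2 hd s j).1, (cx_side2 hd s j).2,
      ← hbR] at this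
    unfold det at this
    linear_combination this
  obtain ⟨r, hr, hrL, hrne⟩ := exists_other hd hL₁ (divPoint T d s (i + 1))
  have hdet1 := det_line s hL₁ hPL₁ hiL₁ hrL
  rw [(cx_side0 hd s (i + 1)).1, (cx_side0 hd s (i + 1)).2] at hdet1
  push_cast at hdet1
  obtain ⟨k, hk, h2⟩ := stepA hx hy hxy (b := b) (by omega) (by omega) hi h1 (marked_bd hd s hr)
    (by
      rintro ⟨e1, e2⟩
      apply hrne
      apply cxy_inj hd s
      · rw [(cx_side0 hd s (i + 1)).1, e1]; push_cast; ring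
      · rw [(cx_side0 hd s (i + 1)).2, e2]) hdet1
  obtain ⟨r', hr', hrL', hrne'⟩ := exists_other hd hL₂ (divPoint T d (s + 2) (j + 1))
  have hdet2 := det_line s hL₂ hPL₂ hjL₂ hrL'
  rw [(cx_side2 hd s (j + 1)).1, (cx_side2 hd s (j + 1)).2] at hdet2
  have hbR1 : (d:ℝ) - ((j + 1 : ℕ) : ℝ) = b - 1 := by push_cast; rw [hbR]; ring
  rw [hbR1] at hdet2
  exact stepB hx hy (by omega) hi h1 hk h2 (marked_bd hd s hr')
    (by
      rintro ⟨e1, e2⟩
      apply hrne'
      apply cxy_inj hd s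
      · rw [(cx_side2 hd s (j + 1)).1, e1]
      · rw [(cx_side2 hd s (j + 1)).2, e2, hbR1]) hdet2

/-- cyclic successor of an index -/
def nxt {d : ℕ} (hd : 0 < d) (u : Fin 3 × Fin d) : Fin 3 × Fin d :=
  if h : (u.2 : ℕ) + 1 < d then (u.1, ⟨u.2 + 1, h⟩) else (u.1 + 1, ⟨0, hd⟩)

theorem nxt_inj {d : ℕ} (hd : 0 < d) : Function.Injective (nxt hd) := by
  rintro ⟨s, i⟩ ⟨t, j⟩ h
  unfold nxt at h
  simp only at h
  split_ifs at h with h1 h2 h2
  · simp only [Prod.mk.injEq, Fin.mk.injEq, Nat.add_right_cancel_iff] at h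
    ext
    · rw [h.1]
    · exact h.2
  · simp at h
  · simp at h
  · simp only [Prod.mk.injEq, and_true, add_left_inj] at h
    have hi := i.2
    have hj := j.2
    ext
    · rw [h]
    · simp only; omega

theorem divPoint_nxt {T : Affine.Triangle ℝ E2} {d : ℕ} (hd : 0 < d) (u : Fin 3 × Fin d) :
    divPoint T d (nxt hd u).1 (nxt hd u).2 = divPoint T d u.1 (u.2 + 1) := by
  unfold nxt
  split_ifs with h
  · rfl
  · have : (u.2 : ℕ) + 1 = d := by have := u.2.2; omega
    rw [this, divPoint_top hd]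

theorem degree_le {T : Affine.Triangle ℝ E2} {d : ℕ} (hd : 0 < d) {P : E2}
    (hP : P ∈ interior (convexHull ℝ (range T.points))) :
    {L ∈ wsLines T d | P ∈ L}.ncard ≤ d + 1 := by
  classical
  have hPc := interior_coords hP
  have hfin : {L ∈ wsLines T d | P ∈ L}.Finite := (wsLines_finite T d).subset fun L hL => hL.1
  rw [Set.ncard_eq_toFinset_card _ hfin]
  set 𝓛 := hfin.toFinset with h𝓛
  have hmem : ∀ L ∈ 𝓛, L ∈ wsLines T d ∧ P ∈ L := fun L hL => by
    rw [h𝓛, Set.Finite.mem_toFinset] at hL; exact hL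
  -- the used indices
  let pt : Fin 3 × Fin d → E2 := fun u => divPoint T d u.1 u.2
  let U : AffineSubspace ℝ E2 → Finset (Fin 3 × Fin d) :=
    fun L => Finset.univ.filter (fun u => pt u ∈ L)
  let Used : Finset (Fin 3 × Fin d) := Finset.univ.filter (fun u => ∃ L ∈ 𝓛, pt u ∈ L)
  have hdisj : ∀ L ∈ 𝓛, ∀ L' ∈ 𝓛, ∀ u, pt u ∈ L → pt u ∈ L' → L = L' := by
    intro L hL L' hL' u h1 h2
    exact line_unique (hmem L hL).1 (hmem L' hL').1 (divPoint_ne hd hPc u.1 u.2)
      (hmem L hL).2 h1 (hmem L' hL').2 h2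
  have hcard2 : ∀ L ∈ 𝓛, 2 ≤ (U L).card := by
    intro L hL
    obtain ⟨s, i, j, hi, hj, h1, h2⟩ := exists_pair hd (hmem L hL).1
    have hne : ((s, ⟨i, hi⟩) : Fin 3 × Fin d) ≠ (s + 2, ⟨j, hj⟩) := by
      intro h
      have := congrArg Prod.fst h
      simp only at this
      have h3 : s ≠ s + 2 := by fin_cases s <;> decide
      exact h3 this
    have : ({(s, ⟨i, hi⟩), (s + 2, ⟨j, hj⟩)} : Finset (Fin 3 × Fin d)) ⊆ U L := by
      intro u hu
      rw [Finset.mem_insert, Finset.mem_singleton] at hu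
      rcases hu with rfl | rfl
      · exact Finset.mem_filter.2 ⟨Finset.mem_univ _, h1⟩
      · exact Finset.mem_filter.2 ⟨Finset.mem_univ _, h2⟩
    have h4 := Finset.card_le_card this
    rwa [Finset.card_pair hne] at h4
  have hused : 2 * 𝓛.card ≤ Used.card := by
    have h1 : (𝓛.biUnion U).card = ∑ L ∈ 𝓛, (U L).card := by
      apply Finset.card_biUnion
      intro L hL L' hL' hne
      rw [Function.onFun, Finset.disjoint_left]
      intro u hu hu'
      exact hne (hdisj L hL L' hL' u (Finset.mem_filter.1 hu).2 (Finset.mem_filter.1 hu').2)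
    have h2 : 𝓛.biUnion U ⊆ Used := by
      intro u hu
      rw [Finset.mem_biUnion] at hu
      obtain ⟨L, hL, hu⟩ := hu
      exact Finset.mem_filter.2 ⟨Finset.mem_univ _, L, hL, (Finset.mem_filter.1 hu).2⟩
    calc 2 * 𝓛.card = ∑ L ∈ 𝓛, 2 := by rw [Finset.sum_const, smul_eq_mul, mul_comm]
      _ ≤ ∑ L ∈ 𝓛, (U L).card := Finset.sum_le_sum hcard2
      _ = (𝓛.biUnion U).card := h1.symm
      _ ≤ Used.card := Finset.card_le_card h2
  -- exceptional lines
  let 𝓔 : Finset (AffineSubspace ℝ E2) := 𝓛.filter (fun L => ∀ u, pt u ∈ L → nxt hd u ∈ Used)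
  have hE : 𝓔.card ≤ 3 := by
    have key : ∀ L ∈ 𝓔, ∃ (s : Fin 3) (i : ℕ), divPoint T d s i ∈ L ∧ cx T d s P < i ∧
        ((i:ℝ) - cx T d s P) * (i + 1 - cx T d s P) = cx T d s P * cy T d s P := by
      intro L hL
      obtain ⟨hL, hnxt⟩ := Finset.mem_filter.1 hL
      obtain ⟨s, i, j, hi, hj, h1, h2⟩ := exists_pair hd (hmem L hL).1
      obtain ⟨-, L₁, hL₁, h3⟩ := Finset.mem_filter.1 (hnxt (s, ⟨i, hi⟩) h1)
      obtain ⟨-, L₂, hL₂, h4⟩ := Finset.mem_filter.1 (hnxt (s + 2, ⟨j, hj⟩) h2)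
      simp only [pt] at h3 h4
      rw [divPoint_nxt] at h3 h4
      exact ⟨s, i, h1, exceptional hd hPc hi hj (hmem L hL).1 (hmem L₁ hL₁).1 (hmem L₂ hL₂).1
        (hmem L hL).2 (hmem L₁ hL₁).2 (hmem L₂ hL₂).2 h1 h2 h3 h4⟩
    choose! f i hf using key
    have hinj : Set.InjOn f 𝓔 := by
      intro L hL L' hL' hff
      rw [Finset.mem_coe] at hL hL'
      obtain ⟨h1, h2, h3⟩ := hf L hL
      obtain ⟨h1', h2', h3'⟩ := hf L' hL'
      rw [← hff] at h1' h2' h3'
      have hii := unique_a h2 h2' h3 h3'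
      rw [← hii] at h1'
      have hL2 := (Finset.mem_filter.1 hL).1
      have hL2' := (Finset.mem_filter.1 hL').1
      exact line_unique (hmem L hL2).1 (hmem L' hL2').1 (divPoint_ne hd hPc (f L) (i L))
        (hmem L hL2).2 h1 (hmem L' hL2').2 h1'
    have h5 := Finset.card_le_card_of_injOn (t := (Finset.univ : Finset (Fin 3))) f
      (fun _ _ => Finset.mem_univ _) hinj
    simpa using h5
  -- unused indices
  have hunused : (𝓛 \ 𝓔).card ≤ (Finset.univ \ Used).card := by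
    have key : ∀ L ∈ 𝓛 \ 𝓔, ∃ u, pt u ∈ L ∧ nxt hd u ∉ Used := by
      intro L hL
      rw [Finset.mem_sdiff] at hL
      by_contra hcon
      push Not at hcon
      exact hL.2 (Finset.mem_filter.2 ⟨hL.1, hcon⟩)
    have hne : Nonempty (Fin 3 × Fin d) := ⟨(0, ⟨0, hd⟩)⟩
    choose! g hg using key
    apply Finset.card_le_card_of_injOn (fun L => nxt hd (g L))
    · intro L hL
      rw [Finset.mem_coe, Finset.mem_sdiff]
      exact ⟨Finset.mem_univ _, (hg L hL).2⟩
    · intro L hL L' hL' h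
      have h1 := nxt_inj hd h
      have h2 := (hg L hL).1
      have h3 := (hg L' hL').1
      rw [← h1] at h3
      exact hdisj L (Finset.mem_sdiff.1 hL).1 L' (Finset.mem_sdiff.1 hL').1 _ h2 h3
  have hsub : 𝓔 ⊆ 𝓛 := Finset.filter_subset _ _
  have h1 := Finset.card_sdiff_add_card_eq_card hsub
  have h2 := Finset.card_sdiff_add_card_eq_card (Finset.subset_univ Used)
  have h3 : (Finset.univ : Finset (Fin 3 × Fin d)).card = 3 * d := by simp
  omega

end Q137.WangShi
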